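import Pool.Agent.K1H14.SF.Cmb0
import Pool.Agent.K1H89.SE.LIEE
import Pool.Agent.K1H42.SD.Span

set_option autoImplicit false

namespace Pool.Agent.K1H14.SF

open Pool.Agent.K1H14.SD Pool.Agent.K1H14.SE

open Pool.Agent.K1H42.SD (pr pr_apply PK even_pair)

open scoped symmDiff

universe u

variable {A : Type u} [Ring A] [Algebra ℂ A] {d : ℕ}

theorem two_set {M : Finset (Fin d) → A} {st : A →ₗ[ℂ] A} (h : FullE M st)
    (L : Finset (Fin d)) (hL : L.card = 2) : st (M L) = - M L ∧ M L * M L = -1 := by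
  have h1 := h.st_M L
  have h2 := h.st_inv L
  have h3 : st (M L) = - M L := by
    rw [h1, hL]
    simp
  refine ⟨h3, ?_⟩
  rw [h3, neg_mul] at h2
  rw [← h2, neg_neg]

theorem pr_mem {M : Finset (Fin d) → A} {st : A →ₗ[ℂ] A} (h : FullE M st) (N : Submodule ℂ A)
    (L : Finset (Fin d)) (hL : L.card = 2) (hN : ∀ x ∈ N, M L * x - x * M L ∈ N) (ε : ℂ) (x : A)
    (hx : x ∈ N) : pr M st L ε x ∈ N := by
  obtain ⟨h1, h2⟩ := two_set h L hL
  rw [pr_apply]
  refine N.smul_mem _ (N.add_mem hx (N.smul_mem _ ?_))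
  have h3 := hN _ (hN x hx)
  have h4 : M L * (x * st (M L)) =
      x + (1 / 2 : ℂ) • (M L * (M L * x - x * M L) - (M L * x - x * M L) * M L) := by
    have e1 : M L * (M L * x) = - x := by
      rw [← mul_assoc, h2, neg_one_mul]
    have e2 : x * M L * M L = - x := by
      rw [mul_assoc, h2, mul_neg_one]
    rw [mul_sub, sub_mul, e1, e2]
    have e3 : - x - M L * (x * M L) - (M L * x * M L - - x) =
        (2 : ℂ) • (- x - M L * (x * M L)) := by
      rw [two_smul, mul_assoc]
      abel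
    rw [e3, smul_smul, show (1 / 2 : ℂ) * 2 = 1 by norm_num, one_smul, h1, mul_neg, mul_neg]
    abel
  rw [h4]
  exact N.add_mem hx (N.smul_mem _ h3)

theorem pr_M {M : Finset (Fin d) → A} {st : A →ₗ[ℂ] A} (h : FullE M st)
    (L : Finset (Fin d)) (hL : L.card = 2) (K K' : Finset (Fin d)) :
    pr M st L ((-1) ^ (L ∩ K).card) (M K') =
      if (Even (L ∩ K).card ↔ Even (L ∩ K').card) then M K' else 0 := by
  obtain ⟨h1, h2⟩ := two_set h L hL
  have h3 : M L * (M K' * st (M L)) = (-1 : ℂ) ^ (L ∩ K').card • M K' := by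
    rw [← mul_assoc, h.comm L K', smul_mul_assoc, mul_assoc, h1, mul_neg, h2, neg_neg,
      mul_one, pow_add, pow_mul, hL]
    norm_num
  rw [pr_apply, h3]
  rcases Nat.even_or_odd (L ∩ K).card with ha | ha <;>
    rcases Nat.even_or_odd (L ∩ K').card with hb | hb
  · rw [if_pos (by simp [ha, hb]), ha.neg_one_pow, hb.neg_one_pow, one_smul, one_smul,
      ← two_smul ℂ (M K'), smul_smul]
    norm_num
  · have hb' := Nat.not_even_iff_odd.2 hb
    rw [if_neg (by tauto), ha.neg_one_pow, hb.neg_one_pow, one_smul, neg_one_smul, add_neg_cancel,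
      smul_zero]
  · have ha' := Nat.not_even_iff_odd.2 ha
    rw [if_neg (by tauto), ha.neg_one_pow, hb.neg_one_pow, one_smul, neg_one_smul, add_neg_cancel,
      smul_zero]
  · have ha' := Nat.not_even_iff_odd.2 ha
    have hb' := Nat.not_even_iff_odd.2 hb
    rw [if_pos (by tauto), ha.neg_one_pow, hb.neg_one_pow, smul_smul,
      show (-1 : ℂ) * (-1) = 1 by norm_num, one_smul, ← two_smul ℂ (M K'), smul_smul,
      show (1 / 2 : ℂ) * 2 = 1 by norm_num, one_smul]

theorem PK_mem {M : Finset (Fin d) → A} {st : A →ₗ[ℂ] A} (h : FullE M st) (N : Submodule ℂ A)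
    (hN : ∀ K : Finset (Fin d), K.card = 2 → ∀ x ∈ N, M K * x - x * M K ∈ N) (z : Fin d)
    (K : Finset (Fin d)) (l : List (Fin d)) (hl : ∀ j ∈ l, j ≠ z) (x : A) (hx : x ∈ N) :
    PK M st z K l x ∈ N := by
  induction l with
  | nil => exact hx
  | cons j l ih =>
    have hc : ({z, j} : Finset (Fin d)).card = 2 :=
      Finset.card_pair (hl j (List.mem_cons_self ..)).symm
    exact pr_mem h N _ hc (hN _ hc) _ _ (ih fun i hi => hl i (List.mem_cons_of_mem _ hi))

theorem PK_M {M : Finset (Fin d) → A} {st : A →ₗ[ℂ] A} (h : FullE M st) (z : Fin d)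
    (K K' : Finset (Fin d)) (l : List (Fin d)) (hl : ∀ j ∈ l, j ≠ z) :
    PK M st z K l (M K') = if (∀ j ∈ l, (Even (({z, j} : Finset (Fin d)) ∩ K).card ↔
      Even (({z, j} : Finset (Fin d)) ∩ K').card)) then M K' else 0 := by
  induction l with
  | nil => simp [PK]
  | cons j l ih =>
    have hc : ({z, j} : Finset (Fin d)).card = 2 :=
      Finset.card_pair (hl j (List.mem_cons_self ..)).symm
    show pr M st {z, j} ((-1) ^ (({z, j} : Finset (Fin d)) ∩ K).card) (PK M st z K l (M K')) = _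
    rw [ih fun i hi => hl i (List.mem_cons_of_mem _ hi)]
    by_cases h1 : ∀ j ∈ l, (Even (({z, j} : Finset (Fin d)) ∩ K).card ↔
      Even (({z, j} : Finset (Fin d)) ∩ K').card)
    · rw [if_pos h1, pr_M h _ hc K K']
      by_cases h2 : (Even (({z, j} : Finset (Fin d)) ∩ K).card ↔
        Even (({z, j} : Finset (Fin d)) ∩ K').card)
      · rw [if_pos h2, if_pos]
        intro i hi
        rcases List.mem_cons.1 hi with rfl | hi
        · exact h2
        · exact h1 i hi
      · rw [if_neg h2, if_neg]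
        intro h3
        exact h2 (h3 j (List.mem_cons_self ..))
    · rw [if_neg h1, map_zero, if_neg]
      intro h3
      exact h1 fun i hi => h3 i (List.mem_cons_of_mem _ hi)

/-- the subsets of cardinality two modulo four -/
def sks (d : ℕ) : Finset (Finset (Fin d)) := Finset.univ.filter fun K => K.card % 4 = 2

theorem exists_coeff {M : Finset (Fin d) → A} (x : A) (hx : x ∈ EvS M) :
    ∃ c : Finset (Fin d) → ℂ, x = ∑ K ∈ evs d, c K • M K := by
  unfold EvS at hx
  induction hx using Submodule.span_induction with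
  | mem x hx =>
    obtain ⟨K, hK, rfl⟩ := hx
    refine ⟨fun L => if L = K then 1 else 0, ?_⟩
    rw [Finset.sum_eq_single K]
    · simp
    · intro L _ hL
      simp [hL]
    · intro hK'
      exact absurd (show K ∈ evs d from Finset.mem_filter.2 ⟨Finset.mem_univ _, hK⟩) hK'
  | zero => exact ⟨fun _ => 0, by simp⟩
  | add x y _ _ hx hy =>
    obtain ⟨c, hc⟩ := hx
    obtain ⟨c', hc'⟩ := hy
    refine ⟨fun L => c L + c' L, ?_⟩
    rw [hc, hc', ← Finset.sum_add_distrib]
    simp only [add_smul]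
  | smul a x _ hx =>
    obtain ⟨c, hc⟩ := hx
    refine ⟨fun L => a * c L, ?_⟩
    rw [hc, Finset.smul_sum]
    simp only [mul_smul]

theorem sgn_zero (n : ℕ) (h : n % 4 = 0) : (-1 : ℂ) ^ (n * (n - 1) / 2) = 1 := by
  obtain ⟨m, rfl⟩ : ∃ m, n = 4 * m := ⟨n / 4, by omega⟩
  have : 4 * m * (4 * m - 1) / 2 = 2 * (m * (4 * m - 1)) := by
    rw [show 4 * m * (4 * m - 1) = 2 * (2 * (m * (4 * m - 1))) by ring]
    exact Nat.mul_div_cancel_left _ two_pos
  rw [this]
  exact (even_two_mul _).neg_one_pow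

theorem sgn_two (n : ℕ) (h : n % 4 = 2) : (-1 : ℂ) ^ (n * (n - 1) / 2) = -1 := by
  obtain ⟨m, rfl⟩ : ∃ m, n = 4 * m + 2 := ⟨n / 4, by omega⟩
  have : (4 * m + 2) * (4 * m + 2 - 1) / 2 = 2 * (4 * m * m + 3 * m) + 1 := by
    rw [show 4 * m + 2 - 1 = 4 * m + 1 by omega,
      show (4 * m + 2) * (4 * m + 1) = 2 * (2 * (4 * m * m + 3 * m) + 1) by ring]
    exact Nat.mul_div_cancel_left _ two_pos
  rw [this]
  exact (odd_two_mul_add_one _).neg_one_pow

/-- a skew even element is a combination of the skew monomials -/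
theorem exists_skew {M : Finset (Fin d) → A} {st : A →ₗ[ℂ] A} (h : FullE M st) (x : A)
    (hx : x ∈ EvS M) (hs : st x = -x) :
    ∃ c : Finset (Fin d) → ℂ, x = ∑ K ∈ sks d, c K • M K := by
  obtain ⟨c, hc⟩ := exists_coeff x hx
  refine ⟨c, ?_⟩
  have h1 : x = (1 / 2 : ℂ) • (x - st x) := by
    rw [hs, sub_neg_eq_add, ← two_smul ℂ x, smul_smul]
    norm_num
  have h2 : st x = ∑ K ∈ evs d, c K • st (M K) := by
    conv_lhs => rw [hc]
    rw [map_sum]
    simp only [map_smul]
  have h3 : x - st x = ∑ K ∈ evs d, c K • (M K - st (M K)) := by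
    rw [h2]
    conv_lhs => rw [hc]
    rw [← Finset.sum_sub_distrib]
    simp only [smul_sub]
  have hsub : sks d ⊆ evs d := by
    intro K hK
    refine Finset.mem_filter.2 ⟨Finset.mem_univ _, ?_⟩
    have := (Finset.mem_filter.1 hK).2
    exact Nat.even_iff.2 (by omega)
  rw [h1, h3, ← Finset.sum_subset hsub, Finset.smul_sum]
  · refine Finset.sum_congr rfl fun K hK => ?_
    rw [h.st_M K, sgn_two _ (Finset.mem_filter.1 hK).2, neg_one_smul, sub_neg_eq_add,
      ← two_smul ℂ (M K), smul_smul, smul_smul]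
    congr 1
    ring
  · intro K hK hK'
    have h4 : Even K.card := (Finset.mem_filter.1 hK).2
    have h5 : ¬ K.card % 4 = 2 := fun h6 => hK' (Finset.mem_filter.2 ⟨Finset.mem_univ _, h6⟩)
    have h6 : K.card % 4 = 0 := by
      have := Nat.even_iff.1 h4
      omega
    rw [h.st_M K, sgn_zero _ h6, one_smul, sub_self, smul_zero]

theorem pat (z : Fin d) (K K' : Finset (Fin d))
    (h : ∀ j, j ≠ z → (Even (({z, j} : Finset (Fin d)) ∩ K).card ↔
      Even (({z, j} : Finset (Fin d)) ∩ K').card)) : K' = K ∨ K' = Kᶜ := by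
  by_cases h1 : (z ∈ K ↔ z ∈ K')
  · left
    ext j
    by_cases hj : j = z
    · subst hj
      exact h1.symm
    · have := h j hj
      rw [even_pair z j hj, even_pair z j hj] at this
      tauto
  · right
    ext j
    rw [Finset.mem_compl]
    by_cases hj : j = z
    · subst hj
      tauto
    · have := h j hj
      rw [even_pair z j hj, even_pair z j hj] at this
      tauto

theorem pat_compl (z j : Fin d) (hj : j ≠ z) (K : Finset (Fin d)) :
    (Even (({z, j} : Finset (Fin d)) ∩ K).card ↔ Even (({z, j} : Finset (Fin d)) ∩ Kᶜ).card) := by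
  rw [even_pair z j hj, even_pair z j hj, Finset.mem_compl, Finset.mem_compl]
  tauto

/-- the components of an element of `N` -/
theorem comp_mem {M : Finset (Fin d) → A} {st : A →ₗ[ℂ] A} (h : FullE M st) (N : Submodule ℂ A)
    (hN : ∀ K : Finset (Fin d), K.card = 2 → ∀ x ∈ N, M K * x - x * M K ∈ N) (hpos : 0 < d)
    {c : Finset (Fin d) → ℂ} (hx : (∑ K ∈ sks d, c K • M K) ∈ N) {K : Finset (Fin d)}
    (hK : K.card % 4 = 2) : c K • M K + c Kᶜ • M Kᶜ ∈ N := by
  classical
  have hd := h.dim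
  have hcc : K.card + Kᶜ.card = d := by rw [Finset.card_add_card_compl, Fintype.card_fin]
  let z : Fin d := ⟨0, hpos⟩
  let l : List (Fin d) := (Finset.univ.erase z).toList
  have hl : ∀ j ∈ l, j ≠ z := by
    intro j hj
    exact Finset.ne_of_mem_erase (Finset.mem_toList.1 hj)
  have hl' : ∀ j, j ≠ z → j ∈ l := by
    intro j hj
    exact Finset.mem_toList.2 (Finset.mem_erase.2 ⟨hj, Finset.mem_univ _⟩)
  have hne : K ≠ Kᶜ := by
    intro h1
    have h2 : z ∈ K ↔ z ∈ Kᶜ := by rw [← h1]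
    rw [Finset.mem_compl] at h2
    tauto
  have h1 : PK M st z K l (∑ K ∈ sks d, c K • M K) = c K • M K + c Kᶜ • M Kᶜ := by
    rw [map_sum, Finset.sum_eq_add K Kᶜ hne]
    · rw [map_smul, map_smul, PK_M h z K K l hl, PK_M h z K Kᶜ l hl, if_pos, if_pos]
      · intro j hj
        exact pat_compl z j (hl j hj) K
      · intro j _
        exact Iff.rfl
    · rintro K' - ⟨h2, h3⟩
      rw [map_smul, PK_M h z K K' l hl, if_neg, smul_zero]
      intro h4
      rcases pat z K K' fun j hj => h4 j (hl' j hj) with h5 | h5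
      · exact h2 h5
      · exact h3 h5
    · intro h2
      exact absurd (show K ∈ sks d from Finset.mem_filter.2 ⟨Finset.mem_univ _, hK⟩) h2
    · intro h2
      exact absurd (show Kᶜ ∈ sks d from Finset.mem_filter.2 ⟨Finset.mem_univ _, by omega⟩) h2
  rw [← h1]
  exact PK_mem h N hN z K l hl _ hx

lemma br_calc (m z : A) (h : z * m = -(m * z)) :
    z * (m * z - z * m) - (m * z - z * m) * z = -((4 : ℂ) • (m * (z * z))) := by
  have g3 : z * (m * z) = -(m * (z * z)) := by
    rw [← mul_assoc, h, neg_mul, mul_assoc]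
  rw [h, sub_neg_eq_add, mul_add, add_mul, g3, mul_assoc]
  module

/-- **the Lie algebra** -/
theorem lie0 {M : Finset (Fin d) → A} {st : A →ₗ[ℂ] A} (h : FullE M st) (h8 : 8 ≤ d)
    (N : Submodule ℂ A) (hE : ∀ x ∈ N, x ∈ EvS M) (h2 : ∀ K : Finset (Fin d), K.card = 2 → M K ∈ N)
    (hbr : ∀ x ∈ N, ∀ y ∈ N, x * y - y * x ∈ N) (hS : ∀ x ∈ N, st x = -x)
    (hx0 : ∃ x ∈ Lev M (d - 2), x ∉ N) : ∀ x ∈ N, x ∈ Lev M 2 := by
  classical
  have hd := h.dim
  have hN : ∀ K : Finset (Fin d), K.card = 2 → ∀ x ∈ N, M K * x - x * M K ∈ N :=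
    fun K hK x hx => hbr _ (h2 K hK) _ hx
  have hD : ¬ ∀ L : Finset (Fin d), L.card = d - 2 → M L ∈ N := by
    intro hD
    obtain ⟨x, hx, hxN⟩ := hx0
    apply hxN
    have : Lev M (d - 2) ≤ N := by
      unfold Lev
      rw [Submodule.span_le]
      rintro y ⟨K, hK, rfl⟩
      exact hD K hK
    exact this hx
  -- (A) the monomials in `N` have degree two
  have hA : ∀ K : Finset (Fin d), K.card % 4 = 2 → M K ∈ N → K.card = 2 := by
    intro K hK hKN
    by_contra hne
    apply hD
    intro L hL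
    refine (cmb0 d (fun K => K.card % 4 = 2 ∧ M K ∈ N) hd (fun K hK => ⟨by omega, h2 K hK⟩) ?_
      (fun K hK => hK.1) ⟨K, ⟨hK, hKN⟩, hne⟩ L hL).2
    rintro K L ⟨hK, hKN⟩ ⟨hL, hLN⟩ hodd
    have hc : (K ∆ L).card + 2 * (K ∩ L).card = K.card + L.card :=
      Pool.Agent.K1H89.SE.card_sd K L
    refine ⟨?_, ?_⟩
    · obtain ⟨m, hm⟩ := hodd
      omega
    · have h1 := h.comm K L
      have h3 : Odd (K.card * L.card + (K ∩ L).card) := by
        refine Even.add_odd (Even.mul_right (Nat.even_iff.2 (by omega)) _) hodd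
      rw [h3.neg_one_pow, neg_smul, one_smul] at h1
      obtain ⟨ε, hε, h4⟩ := h.mul K L
      have h5 := hbr _ hKN _ hLN
      have h6 : M L * M K = -(M K * M L) := by rw [h1, neg_neg]
      rw [h6, sub_neg_eq_add, ← two_smul ℂ, h4, smul_smul] at h5
      have h7 : (2 * ε : ℂ) ≠ 0 := by
        rcases hε with rfl | rfl <;> norm_num
      have h8 := N.smul_mem (2 * ε)⁻¹ h5
      rwa [smul_smul, inv_mul_cancel₀ h7, one_smul] at h8
  intro x hx
  obtain ⟨c, hc⟩ := exists_skew h x (hE x hx) (hS x hx)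
  rw [hc] at hx
  have key : ∀ K ∈ sks d, c K ≠ 0 → K.card = 2 := by
    intro K hK hcK
    have hK4 : K.card % 4 = 2 := (Finset.mem_filter.1 hK).2
    by_contra hne
    have hcc : K.card + Kᶜ.card = d := by rw [Finset.card_add_card_compl, Fintype.card_fin]
    have hz := comp_mem h N hN (by omega) hx hK4
    have hKN : M K ∉ N := fun h1 => hne (hA K hK4 h1)
    have hsc : ∀ {a : ℂ} {y : A}, a ≠ 0 → a • y ∈ N → y ∈ N := by
      intro a y ha hy
      have h8 := N.smul_mem a⁻¹ hy
      rwa [smul_smul, inv_mul_cancel₀ ha, one_smul] at h8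
    by_cases hb : c Kᶜ = 0
    · rw [hb, zero_smul, add_zero] at hz
      exact hKN (hsc hcK hz)
    obtain ⟨i, hi⟩ : K.Nonempty := by rw [← Finset.card_pos]; omega
    obtain ⟨j, hj⟩ : Kᶜ.Nonempty := by rw [← Finset.card_pos]; omega
    have hjK : j ∉ K := Finset.mem_compl.1 hj
    have hij : i ≠ j := fun e => hjK (e ▸ hi)
    have hL : ({i, j} : Finset (Fin d)).card = 2 := Finset.card_pair hij
    have hK1 : ({i, j} : Finset (Fin d)) ∩ K = {i} := by
      ext k
      simp only [Finset.mem_inter, Finset.mem_insert, Finset.mem_singleton]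
      constructor
      · rintro ⟨rfl | rfl, hk⟩
        · rfl
        · exact absurd hk hjK
      · rintro rfl
        exact ⟨Or.inl rfl, hi⟩
    have hK2 : ({i, j} : Finset (Fin d)) ∩ Kᶜ = {j} := by
      ext k
      simp only [Finset.mem_inter, Finset.mem_insert, Finset.mem_singleton, Finset.mem_compl]
      constructor
      · rintro ⟨rfl | rfl, hk⟩
        · exact absurd hi hk
        · rfl
      · rintro rfl
        exact ⟨Or.inr rfl, hjK⟩
    set m := M {i, j} with hm
    set X := M K with hX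
    set Y := M Kᶜ with hY
    have e1 : m * X = -(X * m) := by
      have h1 := h.comm {i, j} K
      rw [hK1, hL, Finset.card_singleton, pow_add, pow_mul] at h1
      simpa using h1
    have e2 : m * Y = -(Y * m) := by
      have h1 := h.comm {i, j} Kᶜ
      rw [hK2, hL, Finset.card_singleton, pow_add, pow_mul] at h1
      simpa using h1
    have sq : ∀ L : Finset (Fin d), L.card % 4 = 2 → M L * M L = -1 := by
      intro L hL
      have h1 := h.st_inv L
      rw [h.st_M, sgn_two _ hL, neg_one_smul, neg_mul] at h1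
      rw [← h1, neg_neg]
    have e3 : X * X = -1 := sq K hK4
    have e4 : Y * Y = -1 := sq Kᶜ (by omega)
    have e5 : Y * X = X * Y := by
      have h1 := h.comm Kᶜ K
      have h0 : Kᶜ ∩ K = ∅ := by ext k; simp
      rw [h0, Finset.card_empty, add_zero,
        (Even.mul_right (Nat.even_iff.2 (by omega)) _).neg_one_pow, one_smul] at h1
      exact h1
    have hmN : m ∈ N := h2 _ hL
    have h10 := hbr _ hz _ (hbr _ hmN _ hz)
    have h11 : (c K • X + c Kᶜ • Y) * (m * (c K • X + c Kᶜ • Y) - (c K • X + c Kᶜ • Y) * m) -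
        (m * (c K • X + c Kᶜ • Y) - (c K • X + c Kᶜ • Y) * m) * (c K • X + c Kᶜ • Y) =
        (4 * (c K * c K + c Kᶜ * c Kᶜ)) • m - (8 * (c K * c Kᶜ)) • (m * (X * Y)) := by
      have g1 : (c K • X + c Kᶜ • Y) * m = -(m * (c K • X + c Kᶜ • Y)) := by
        rw [add_mul, mul_add, smul_mul_assoc, smul_mul_assoc, mul_smul_comm, mul_smul_comm, e1, e2,
          smul_neg, smul_neg, neg_add, neg_neg, neg_neg]
      set z := c K • X + c Kᶜ • Y with hzd
      have g2 : z * (m * z - z * m) - (m * z - z * m) * z = -((4 : ℂ) • (m * (z * z))) :=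
        br_calc m z g1
      have g4 : z * z = (-(c K * c K + c Kᶜ * c Kᶜ)) • (1 : A) + (2 * (c K * c Kᶜ)) • (X * Y) := by
        rw [hzd, add_mul, mul_add, mul_add, smul_mul_smul_comm, smul_mul_smul_comm,
          smul_mul_smul_comm, smul_mul_smul_comm, e3, e4, e5]
        module
      rw [g2, g4, mul_add, mul_smul_comm, mul_smul_comm, mul_one]
      module
    rw [h11] at h10
    have h12 : (8 * (c K * c Kᶜ)) • (m * (X * Y)) ∈ N := by
      have h13 := N.sub_mem (N.smul_mem (4 * (c K * c K + c Kᶜ * c Kᶜ)) hmN) h10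
      rwa [sub_sub_cancel] at h13
    have h14 : m * (X * Y) ∈ N :=
      hsc (mul_ne_zero (by norm_num) (mul_ne_zero hcK hb)) h12
    obtain ⟨ε, hε, h15⟩ := h.mul K Kᶜ
    obtain ⟨ε', hε', h16⟩ := h.mul {i, j} (K ∆ Kᶜ)
    have h17 : K ∆ Kᶜ = Finset.univ := by
      ext k
      simp only [Finset.mem_symmDiff, Finset.mem_compl, Finset.mem_univ, iff_true]
      tauto
    have h18 : ({i, j} : Finset (Fin d)) ∆ Finset.univ = ({i, j} : Finset (Fin d))ᶜ := by
      ext k
      simp only [Finset.mem_symmDiff, Finset.mem_compl, Finset.mem_univ, not_true_eq_false,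
        and_false, true_and, false_or]
    rw [hX, hY, h15, mul_smul_comm, hm, h16, smul_smul, h17, h18] at h14
    have h19 : ε * ε' ≠ 0 := by
      rcases hε with rfl | rfl <;> rcases hε' with rfl | rfl <;> norm_num
    have h20 := hsc h19 h14
    have h21 : ({i, j} : Finset (Fin d))ᶜ.card = d - 2 := by
      rw [Finset.card_compl, Fintype.card_fin, hL]
    have h22 := hA _ (by rw [h21]; omega) h20
    omega
  rw [hc]
  refine Submodule.sum_mem _ fun K hK => ?_
  by_cases h0 : c K = 0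
  · rw [h0, zero_smul]
    exact Submodule.zero_mem _
  · exact Submodule.smul_mem _ _ (Submodule.subset_span ⟨K, key K hK h0, rfl⟩)

end Pool.Agent.K1H14.SF
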