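import Pool.Agent.K1H14.SF.Stm

set_option autoImplicit false

/-! Project SE: `S_VEC2` (by the Casimir operator). -/

namespace Pool.Agent.K1H14.SF

open Pool.Agent.K1H14.SD Pool.Agent.K1H14.SE

open scoped symmDiff

universe u

variable {C : Type u} [Ring C] [Algebra ℂ C] {d : ℕ} {M : Finset (Fin d) → C} {st : C →ₗ[ℂ] C}
  {tr : C →ₗ[ℂ] ℂ}

/-- the coefficient of a monomial -/
noncomputable def cf (M : Finset (Fin d) → C) (st : C →ₗ[ℂ] C) (tr : C →ₗ[ℂ] ℂ)
    (K : Finset (Fin d)) : C →ₗ[ℂ] ℂ := tr ∘ₗ LinearMap.mulLeft ℂ (st (M K))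

theorem cf_apply (K : Finset (Fin d)) (x : C) : cf M st tr K x = tr (st (M K) * x) := rfl

theorem cf_M (h : FullE M st) (ht : IsTrF M tr) (K K' : Finset (Fin d)) :
    cf M st tr K (M K') = if K = K' then 1 else 0 := by
  rw [cf_apply]
  by_cases hK : K = K'
  · subst hK
    rw [if_pos rfl, h.st_inv K, ← h.one, ht.1, if_pos rfl]
  · rw [if_neg hK, h.st_M]
    obtain ⟨ε, -, hε⟩ := h.mul K K'
    rw [smul_mul_assoc, hε, map_smul, map_smul, ht.1, if_neg, smul_zero, smul_zero]
    rw [← Finset.bot_eq_empty, symmDiff_eq_bot]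
    exact hK

theorem expand (h : FullE M st) (ht : IsTrF M tr) (x : C) :
    x = ∑ K, cf M st tr K x • M K := by
  have hx := h.span x
  induction hx using Submodule.span_induction with
  | mem x hx =>
    obtain ⟨K, rfl⟩ := hx
    rw [Finset.sum_eq_single K]
    · rw [cf_M h ht, if_pos rfl, one_smul]
    · intro L _ hL
      rw [cf_M h ht, if_neg hL, zero_smul]
    · intro hK
      exact absurd (Finset.mem_univ _) hK
  | zero => simp
  | add x y _ _ hx hy =>
    simp only [map_add, add_smul, Finset.sum_add_distrib]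
    rw [← hx, ← hy]
  | smul a x _ hx =>
    simp only [map_smul, smul_eq_mul, mul_smul, ← Finset.smul_sum]
    rw [← hx]

/-- the span of the monomials of the given levels -/
def FF (M : Finset (Fin d) → C) (S : ℕ → Prop) : Submodule ℂ C :=
  Submodule.span ℂ {x | ∃ K : Finset (Fin d), S K.card ∧ x = M K}

theorem FF_M {S : ℕ → Prop} (K : Finset (Fin d)) (hK : S K.card) : M K ∈ FF M S :=
  Submodule.subset_span ⟨K, hK, rfl⟩

theorem cf_FF (h : FullE M st) (ht : IsTrF M tr) {S : ℕ → Prop} {x : C} (hx : x ∈ FF M S)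
    (K : Finset (Fin d)) (hK : ¬ S K.card) : cf M st tr K x = 0 := by
  unfold FF at hx
  induction hx using Submodule.span_induction with
  | mem x hx =>
    obtain ⟨L, hL, rfl⟩ := hx
    rw [cf_M h ht, if_neg]
    rintro rfl
    exact hK hL
  | zero => simp
  | add x y _ _ hx hy => rw [map_add, hx, hy, add_zero]
  | smul a x _ hx => rw [map_smul, hx, smul_zero]

theorem mem_FF (h : FullE M st) (ht : IsTrF M tr) {S : ℕ → Prop} {x : C}
    (hx : ∀ K : Finset (Fin d), ¬ S K.card → cf M st tr K x = 0) : x ∈ FF M S := by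
  have h1 := expand h ht x
  rw [h1]
  refine Submodule.sum_mem _ fun K _ => ?_
  by_cases hK : S K.card
  · exact Submodule.smul_mem _ _ (FF_M K hK)
  · rw [hx K hK, zero_smul]
    exact Submodule.zero_mem _

theorem FF_disj (h : FullE M st) (ht : IsTrF M tr) {S S' : ℕ → Prop}
    (hSS : ∀ k, S k → S' k → False) {x : C} (hx : x ∈ FF M S) (hx' : x ∈ FF M S') : x = 0 := by
  have h1 := expand h ht x
  rw [h1]
  refine Finset.sum_eq_zero fun K _ => ?_
  by_cases hK : S K.card
  · rw [cf_FF h ht hx' K (fun h' => hSS _ hK h'), zero_smul]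
  · rw [cf_FF h ht hx K hK, zero_smul]

theorem two_st (h : FullE M st) (L : Finset (Fin d)) (hL : L.card = 2) : st (M L) = - M L := by
  rw [h.st_M, hL]
  norm_num

theorem two_sq (h : FullE M st) (L : Finset (Fin d)) (hL : L.card = 2) : M L * M L = -1 := by
  have h1 := h.st_inv L
  rw [two_st h L hL, neg_mul] at h1
  rw [← h1, neg_neg]

/-- the 2-sets -/
abbrev I2 (d : ℕ) : Type := {K : Finset (Fin d) // K.card = 2}

theorem expand2 (h : FullE M st) (ht : IsTrF M tr) {x : C} (hx : x ∈ Lev M 2) :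
    x = ∑ K : I2 d, cf M st tr K.1 x • M K.1 := by
  unfold Lev at hx
  induction hx using Submodule.span_induction with
  | mem x hx =>
    obtain ⟨K, hK, rfl⟩ := hx
    rw [Finset.sum_eq_single (⟨K, hK⟩ : I2 d)]
    · rw [cf_M h ht, if_pos rfl, one_smul]
    · intro L _ hL
      rw [cf_M h ht, if_neg (fun e => hL (Subtype.ext e)), zero_smul]
    · intro hK'
      exact absurd (Finset.mem_univ _) hK'
  | zero => simp
  | add x y _ _ hx hy =>
    simp only [map_add, add_smul, Finset.sum_add_distrib]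
    rw [← hx, ← hy]
  | smul a x _ hx =>
    simp only [map_smul, smul_eq_mul, mul_smul, ← Finset.smul_sum]
    rw [← hx]

/-- the Casimir operator -/
noncomputable def SS (M : Finset (Fin d) → C) (x : C) : C := ∑ L : I2 d, M L.1 * x * M L.1

theorem SS_conj (h : FullE M st) (ht : IsTrF M tr) (y : C) (hy : st y * y = 1)
    (hy2 : ∀ x ∈ Lev M 2, y * x * st y ∈ Lev M 2) (v : C) :
    SS M (y * v * st y) = y * SS M v * st y := by
  classical
  let o : Matrix (I2 d) (I2 d) ℂ := Matrix.of fun L K => cf M st tr K.1 (y * M L.1 * st y)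
  have hB : ∀ L : I2 d, y * M L.1 * st y = ∑ K : I2 d, o L K • M K.1 := fun L =>
    expand2 h ht (hy2 _ (Submodule.subset_span ⟨L.1, L.2, rfl⟩))
  have htr : ∀ L L' : I2 d, tr (M L.1 * M L'.1) = if L = L' then -1 else 0 := by
    intro L L'
    have h1 : M L.1 = - st (M L.1) := by rw [two_st h L.1 L.2, neg_neg]
    rw [h1, neg_mul, map_neg]
    have h2 := cf_M h ht L.1 L'.1
    rw [cf_apply] at h2
    rw [h2]
    by_cases e : L = L'
    · rw [if_pos (congrArg Subtype.val e), if_pos e]
    · rw [if_neg (fun e' => e (Subtype.ext e')), if_neg e, neg_zero]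
  have ho : o * o.transpose = 1 := by
    ext L L'
    have h1 : tr ((y * M L.1 * st y) * (y * M L'.1 * st y)) = tr (M L.1 * M L'.1) := by
      have h2 : (y * M L.1 * st y) * (y * M L'.1 * st y) = y * (M L.1 * M L'.1 * st y) := by
        calc _ = y * M L.1 * (st y * y) * (M L'.1 * st y) := by simp only [mul_assoc]
          _ = _ := by rw [hy, mul_one]; simp only [mul_assoc]
      rw [h2, ht.2, mul_assoc, hy, mul_one]
    rw [hB L, hB L', Finset.sum_mul_sum] at h1
    simp only [map_sum, smul_mul_smul_comm, map_smul, htr, smul_eq_mul, mul_ite, mul_neg, mul_one,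
      mul_zero, Finset.sum_ite_eq, Finset.mem_univ, if_true, Finset.sum_neg_distrib] at h1
    rw [Matrix.mul_apply, Matrix.one_apply]
    simp only [Matrix.transpose_apply]
    rw [← neg_inj, h1]
    split_ifs <;> simp
  have ho' : o.transpose * o = 1 := mul_eq_one_comm.1 ho
  have key : ∀ n : C, ∑ L : I2 d, (y * M L.1 * st y) * n * (y * M L.1 * st y) = SS M n := by
    intro n
    have e1 : ∀ L : I2 d, (y * M L.1 * st y) * n * (y * M L.1 * st y) =
        ∑ K : I2 d, ∑ K' : I2 d, (o L K * o L K') • (M K.1 * n * M K'.1) := by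
      intro L
      rw [hB L, Finset.sum_mul, Finset.sum_mul_sum]
      refine Finset.sum_congr rfl fun K _ => Finset.sum_congr rfl fun K' _ => ?_
      rw [smul_mul_assoc, smul_mul_smul_comm]
    rw [Finset.sum_congr rfl fun L _ => e1 L, Finset.sum_comm]
    unfold SS
    refine Finset.sum_congr rfl fun K _ => ?_
    rw [Finset.sum_comm, Finset.sum_eq_single K]
    · rw [← Finset.sum_smul]
      have h1 : ∑ L : I2 d, o L K * o L K = 1 := by
        have h2 := congrFun (congrFun ho' K) K
        rw [Matrix.mul_apply, Matrix.one_apply_eq] at h2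
        simpa only [Matrix.transpose_apply] using h2
      rw [h1, one_smul]
    · intro K' _ hK'
      rw [← Finset.sum_smul]
      have h1 : ∑ L : I2 d, o L K * o L K' = 0 := by
        have h2 := congrFun (congrFun ho' K) K'
        rw [Matrix.mul_apply, Matrix.one_apply_ne hK'.symm] at h2
        simpa only [Matrix.transpose_apply] using h2
      rw [h1, zero_smul]
    · intro hK
      exact absurd (Finset.mem_univ _) hK
  rw [← key]
  unfold SS
  rw [Finset.mul_sum, Finset.sum_mul]
  refine Finset.sum_congr rfl fun L _ => ?_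
  calc y * M L.1 * st y * (y * v * st y) * (y * M L.1 * st y) =
      y * M L.1 * (st y * y) * v * (st y * y) * (M L.1 * st y) := by simp only [mul_assoc]
    _ = _ := by rw [hy]; simp only [mul_one, mul_assoc]

/-- the eigenvalue -/
noncomputable def wt (K : Finset (Fin d)) : ℂ := ∑ L : I2 d, (-1 : ℂ) ^ (L.1 ∩ K).card

theorem SS_M (h : FullE M st) (K : Finset (Fin d)) : SS M (M K) = -(wt K • M K) := by
  unfold SS wt
  rw [Finset.sum_smul, ← Finset.sum_neg_distrib]
  refine Finset.sum_congr rfl fun L _ => ?_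
  rw [h.comm L.1 K, smul_mul_assoc, mul_assoc, two_sq h L.1 L.2, mul_neg, mul_one, smul_neg, L.2,
    pow_add, pow_mul]
  norm_num

theorem cf_SS (h : FullE M st) (ht : IsTrF M tr) (x : C) (K : Finset (Fin d)) :
    cf M st tr K (SS M x) = -(wt K * cf M st tr K x) := by
  have hlin : SS M x = ∑ K', cf M st tr K' x • SS M (M K') := by
    have h1 := expand h ht x
    unfold SS
    conv_lhs => rw [h1]
    simp only [Finset.mul_sum, Finset.sum_mul, mul_smul_comm, smul_mul_assoc, Finset.smul_sum]
    rw [Finset.sum_comm]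
  rw [hlin, map_sum, Finset.sum_eq_single K]
  · rw [map_smul, SS_M h, map_neg, map_smul, cf_M h ht, if_pos rfl, smul_eq_mul, smul_eq_mul]
    ring
  · intro L _ hL
    rw [map_smul, SS_M h, map_neg, map_smul, cf_M h ht, if_neg (Ne.symm hL)]
    simp
  · intro hK
    exact absurd (Finset.mem_univ _) hK

theorem count (K : Finset (Fin d)) :
    (Finset.univ.filter fun L : I2 d => Odd (L.1 ∩ K).card).card = K.card * Kᶜ.card := by
  classical
  symm
  rw [← Finset.card_product]
  have hne : ∀ p ∈ K ×ˢ Kᶜ, p.1 ≠ p.2 := fun p hp e =>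
    (Finset.mem_compl.1 (Finset.mem_product.1 hp).2) (e ▸ (Finset.mem_product.1 hp).1)
  have hint : ∀ p ∈ K ×ˢ Kᶜ, ({p.1, p.2} : Finset (Fin d)) ∩ K = {p.1} := by
    intro p hp
    have h1 := (Finset.mem_product.1 hp).1
    have h2 := Finset.mem_compl.1 (Finset.mem_product.1 hp).2
    ext x
    simp only [Finset.mem_inter, Finset.mem_insert, Finset.mem_singleton]
    constructor
    · rintro ⟨rfl | rfl, hx⟩
      · rfl
      · exact absurd hx h2
    · rintro rfl
      exact ⟨Or.inl rfl, h1⟩
  refine Finset.card_bij (fun p hp => (⟨{p.1, p.2}, Finset.card_pair (hne p hp)⟩ : I2 d)) ?_ ?_ ?_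
  · intro p hp
    rw [Finset.mem_filter]
    refine ⟨Finset.mem_univ _, ?_⟩
    show Odd (({p.1, p.2} : Finset (Fin d)) ∩ K).card
    rw [hint p hp, Finset.card_singleton]
    exact odd_one
  · intro p hp q hq e
    have e' : ({p.1, p.2} : Finset (Fin d)) = {q.1, q.2} := congrArg Subtype.val e
    have h1 : p.1 = q.1 := by
      have h2 := hint p hp
      rw [e', hint q hq] at h2
      exact (Finset.singleton_inj.1 h2).symm
    have h3 : p.2 ∈ ({q.1, q.2} : Finset (Fin d)) := by
      rw [← e']
      simp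
    rcases Finset.mem_insert.1 h3 with h4 | h4
    · exact absurd (h1.trans h4.symm) (hne p hp)
    · exact Prod.ext h1 (Finset.mem_singleton.1 h4)
  · intro L hL
    have h1 := (Finset.mem_filter.1 hL).2
    have h2 := Finset.card_sdiff_add_card_inter L.1 K
    rw [L.2] at h2
    have h3 : (L.1 ∩ K).card = 1 := by
      obtain ⟨t, ht⟩ := h1
      omega
    have h4 : (L.1 \ K).card = 1 := by omega
    obtain ⟨i, hi⟩ := Finset.card_eq_one.1 h3
    obtain ⟨j, hj⟩ := Finset.card_eq_one.1 h4
    have hiK : i ∈ L.1 ∩ K := by rw [hi]; exact Finset.mem_singleton_self _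
    have hjK : j ∈ L.1 \ K := by rw [hj]; exact Finset.mem_singleton_self _
    rw [Finset.mem_inter] at hiK
    rw [Finset.mem_sdiff] at hjK
    refine ⟨(i, j), Finset.mem_product.2 ⟨hiK.2, Finset.mem_compl.2 hjK.2⟩, Subtype.ext ?_⟩
    show ({i, j} : Finset (Fin d)) = L.1
    have hij : i ≠ j := fun e => hjK.2 (e ▸ hiK.2)
    refine Finset.eq_of_subset_of_card_le ?_ ?_
    · intro x hx
      rcases Finset.mem_insert.1 hx with rfl | hx
      · exact hiK.1
      · rw [Finset.mem_singleton.1 hx]
        exact hjK.1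
    · rw [L.2, Finset.card_pair hij]

theorem wt_eq (K : Finset (Fin d)) :
    wt K = (Fintype.card (I2 d) : ℂ) - 2 * ((K.card * Kᶜ.card : ℕ) : ℂ) := by
  classical
  have h1 : ∀ L : I2 d, (-1 : ℂ) ^ (L.1 ∩ K).card =
      1 - 2 * (if Odd (L.1 ∩ K).card then 1 else 0) := by
    intro L
    rcases Nat.even_or_odd (L.1 ∩ K).card with h | h
    · rw [h.neg_one_pow, if_neg (Nat.not_odd_iff_even.2 h)]
      norm_num
    · rw [h.neg_one_pow, if_pos h]
      norm_num
  unfold wt
  rw [Finset.sum_congr rfl fun L _ => h1 L, Finset.sum_sub_distrib, ← Finset.mul_sum,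
    Finset.sum_boole, count]
  simp

theorem n_mem (h : FullE M st) (ht : IsTrF M tr) (y : C) (hy : st y * y = 1)
    (hy2 : ∀ x ∈ Lev M 2, y * x * st y ∈ Lev M 2) (i : Fin d) :
    y * M {i} * st y ∈ FF M (fun k => k = 1 ∨ k = d - 1) := by
  refine mem_FF h ht fun K hK => ?_
  push Not at hK
  by_contra hne
  have h1 := SS_conj h ht y hy hy2 (M {i})
  rw [SS_M h] at h1
  have h2 : SS M (y * M {i} * st y) = -(wt {i} • (y * M {i} * st y)) := by
    rw [h1, mul_neg, neg_mul, mul_smul_comm, smul_mul_assoc]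
  have h3 := cf_SS h ht (y * M {i} * st y) K
  rw [h2, map_neg, map_smul, smul_eq_mul, neg_inj] at h3
  have h4 : wt ({i} : Finset (Fin d)) = wt K := mul_right_cancel₀ hne h3
  rw [wt_eq, wt_eq] at h4
  have h5 : ((({i} : Finset (Fin d)).card * ({i} : Finset (Fin d))ᶜ.card : ℕ) : ℂ) =
      ((K.card * Kᶜ.card : ℕ) : ℂ) := by linear_combination (-1 / 2) * h4
  have h6 : ({i} : Finset (Fin d)).card * ({i} : Finset (Fin d))ᶜ.card = K.card * Kᶜ.card := by
    exact_mod_cast h5
  have h7 : ({i} : Finset (Fin d)).card + ({i} : Finset (Fin d))ᶜ.card = d := by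
    rw [Finset.card_add_card_compl, Fintype.card_fin]
  have h8 : K.card + Kᶜ.card = d := by rw [Finset.card_add_card_compl, Fintype.card_fin]
  rw [Finset.card_singleton] at h6 h7
  have h9 : ((K.card : ℤ) - 1) * ((Kᶜ.card : ℤ) - 1) = 0 := by
    have e1 : ((({i} : Finset (Fin d))ᶜ.card : ℕ) : ℤ) = K.card * Kᶜ.card := by
      rw [one_mul] at h6
      exact_mod_cast h6
    have e2 : (1 : ℤ) + ((({i} : Finset (Fin d))ᶜ.card : ℕ) : ℤ) = d := by exact_mod_cast h7
    have e3 : (K.card : ℤ) + (Kᶜ.card : ℤ) = d := by exact_mod_cast h8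
    linear_combination (-1) * e1 + e2 - e3
  rcases mul_eq_zero.1 h9 with h10 | h10
  · exact hK.1 (by omega)
  · exact hK.2 (by omega)

/-! ### vectors -/

theorem cf_st (h : FullE M st) (ht : IsTrF M tr) (K : Finset (Fin d)) (x : C) :
    cf M st tr K (st x) = (-1 : ℂ) ^ (K.card * (K.card - 1) / 2) * cf M st tr K x := by
  have h1 : st x = ∑ K', cf M st tr K' x • st (M K') := by
    conv_lhs => rw [expand h ht x]
    rw [map_sum]
    simp only [map_smul]
  rw [h1, map_sum, Finset.sum_eq_single K]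
  · rw [h.st_M, map_smul, map_smul, cf_M h ht, if_pos rfl, smul_eq_mul, smul_eq_mul, mul_one,
      mul_comm]
  · intro K' _ hne
    rw [h.st_M, map_smul, map_smul, cf_M h ht, if_neg (Ne.symm hne), smul_zero, smul_zero]
  · intro h2
    exact absurd (Finset.mem_univ _) h2

/-- an element which normalises the level two maps vectors to vectors -/
theorem vec0 (h : FullE M st) (ht : IsTrF M tr) (h8 : 8 ≤ d) (y : C) (hy : st y * y = 1)
    (hy2 : ∀ x ∈ Lev M 2, y * x * st y ∈ Lev M 2) {v : C} (hv : v ∈ Lev M 1) :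
    y * v * st y ∈ Lev M 1 := by
  refine Submodule.span_induction (p := fun v _ => y * v * st y ∈ Lev M 1) ?_ ?_ ?_ ?_ hv
  · rintro x ⟨K, hK, rfl⟩
    obtain ⟨i, rfl⟩ := Finset.card_eq_one.1 hK
    have h1 := n_mem h ht y hy hy2 i
    have h2 : st (y * M {i} * st y) = y * M {i} * st y := by
      rw [h.st_mul, h.st_mul, h.st_st, h.st_M, Finset.card_singleton]
      norm_num
      rw [mul_assoc]
    have h3 : y * M {i} * st y ∈ FF M (fun k => k = 1) := by
      refine mem_FF h ht fun K hK1 => ?_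
      by_cases hKd : K.card = d - 1
      · have h4 := cf_st h ht K (y * M {i} * st y)
        rw [h2] at h4
        have h5 : (-1 : ℂ) ^ (K.card * (K.card - 1) / 2) = -1 := by
          have hd := h.dim
          obtain ⟨m, hm⟩ : ∃ m, d = 4 * m + 4 := ⟨d / 4 - 1, by omega⟩
          have h6 : K.card = 4 * m + 3 := by omega
          rw [h6, show 4 * m + 3 - 1 = 4 * m + 2 by omega,
            show (4 * m + 3) * (4 * m + 2) = 2 * (2 * (4 * m * m + 5 * m + 1) + 1) by ring,
            Nat.mul_div_cancel_left _ two_pos]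
          exact (odd_two_mul_add_one _).neg_one_pow
        rw [h5] at h4
        linear_combination (1 / 2 : ℂ) * h4
      · refine cf_FF h ht h1 K ?_
        rintro (h6 | h6)
        · exact hK1 h6
        · exact hKd h6
    exact h3
  · rw [mul_zero, zero_mul]; exact Submodule.zero_mem _
  · intro x x' _ _ h h'
    rw [mul_add, add_mul]; exact Submodule.add_mem _ h h'
  · intro a x _ h
    rw [mul_smul_comm, smul_mul_assoc]; exact Submodule.smul_mem _ _ h

end Pool.Agent.K1H14.SF
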