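import Pool.Agent.K1H14.SE.Asm
import Pool.Agent.K1H14.SF.Conv0

/-!
# Rank zero modulo four: assembly
-/

namespace Pool.Agent.K1H14.SF

open Pool.Agent.K1H14.KS Pool.Agent.K1H14.SD Pool.Agent.K1H14.SE CliffordAlgebra

open scoped symmDiff

universe u

section gen

variable {C : Type u} [Ring C] [Algebra ℂ C] {d : ℕ} {M : Finset (Fin d) → C} {st : C →ₗ[ℂ] C}
  {tr : C →ₗ[ℂ] ℂ}

theorem vec_mul (h : FullE M st) {u v : C} (hu : u ∈ Lev M 1) (hv : v ∈ Lev M 1) :
    u * v ∈ FF M (fun k => k = 0 ∨ k = 2) := by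
  unfold Lev at hu hv
  induction hu using Submodule.span_induction with
  | zero => rw [zero_mul]; exact Submodule.zero_mem _
  | add x y _ _ hx hy => rw [add_mul]; exact Submodule.add_mem _ hx hy
  | smul a x _ hx => rw [smul_mul_assoc]; exact Submodule.smul_mem _ _ hx
  | mem u hu =>
    obtain ⟨K, hK, rfl⟩ := hu
    induction hv using Submodule.span_induction with
    | zero => rw [mul_zero]; exact Submodule.zero_mem _
    | add x y _ _ hx hy => rw [mul_add]; exact Submodule.add_mem _ hx hy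
    | smul a x _ hx => rw [mul_smul_comm]; exact Submodule.smul_mem _ _ hx
    | mem v hv =>
      obtain ⟨L, hL, rfl⟩ := hv
      obtain ⟨ε, -, hε⟩ := h.mul K L
      rw [hε]
      refine Submodule.smul_mem _ _ (FF_M _ ?_)
      have h1 : (K ∆ L).card + 2 * (K ∩ L).card = K.card + L.card := by
        have h1 : (K ∆ L).card = (K \ L).card + (L \ K).card := by
          rw [Finset.symmDiff_def]
          exact Finset.card_union_of_disjoint disjoint_sdiff_sdiff
        have h2 := Finset.card_sdiff_add_card_inter K L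
        have h3 := Finset.card_sdiff_add_card_inter L K
        rw [Finset.inter_comm] at h3
        omega
      omega


/-- an element which anticommutes with the vectors is a multiple of `M univ` -/
theorem anti_mem (h : FullE M st) (ht : IsTrF M tr) {ω : C}
    (hω : ∀ v ∈ Lev M 1, ω * v = -(v * ω)) : ω ∈ Lev M d := by
  have h1 : ω ∈ FF M (fun k => k = d) := by
    refine mem_FF h ht fun K hK => ?_
    have hne : K ≠ Finset.univ := by
      rintro rfl
      exact hK (by rw [Finset.card_univ, Fintype.card_fin])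
    obtain ⟨i, hi⟩ : ∃ i : Fin d, Even (K.card + (K ∩ {i}).card) := by
      rcases Nat.even_or_odd K.card with hK | hK
      · obtain ⟨i, hi⟩ : ∃ i, i ∉ K := by
          by_contra hcon
          push Not at hcon
          exact hne (Finset.eq_univ_iff_forall.2 hcon)
        refine ⟨i, ?_⟩
        rw [Finset.inter_singleton_of_notMem hi, Finset.card_empty, add_zero]
        exact hK
      · obtain ⟨i, hi⟩ : K.Nonempty := by
          rw [← Finset.card_pos]
          exact hK.pos
        refine ⟨i, ?_⟩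
        rw [Finset.inter_singleton_of_mem hi, Finset.card_singleton]
        exact hK.add_one
    have hc := h.comm K {i}
    rw [Finset.card_singleton, mul_one, hi.neg_one_pow, one_smul] at hc
    have hsq : M {i} * M {i} = 1 := by
      have h2 := h.st_inv {i}
      rw [h.st_M {i}, Finset.card_singleton] at h2
      norm_num at h2
      exact h2
    have ha := hω (M {i}) (Submodule.subset_span ⟨{i}, Finset.card_singleton i, rfl⟩)
    rw [cf_apply]
    have hc' : M {i} * st (M K) = st (M K) * M {i} := by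
      rw [h.st_M, mul_smul_comm, smul_mul_assoc, hc]
    have key : tr (st (M K) * ω) = -tr (st (M K) * ω) := by
      calc tr (st (M K) * ω) = tr (st (M K) * ω * (M {i} * M {i})) := by rw [hsq, mul_one]
        _ = tr (st (M K) * (ω * M {i}) * M {i}) := by simp only [mul_assoc]
        _ = -tr (st (M K) * M {i} * ω * M {i}) := by
            rw [ha, mul_neg, neg_mul, map_neg, ← mul_assoc]
        _ = -tr (M {i} * (st (M K) * M {i} * ω)) := by rw [ht.2 (M {i})]
        _ = -tr ((M {i} * st (M K)) * M {i} * ω) := by simp only [mul_assoc]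
        _ = -tr (st (M K) * (M {i} * M {i}) * ω) := by rw [hc']; simp only [mul_assoc]
        _ = -tr (st (M K) * ω) := by rw [hsq, mul_one]
    linear_combination (1 / 2 : ℂ) * key
  exact h1

/-- the product of two orthogonal vectors -/
theorem orth_mem (h : FullE M st) (ht : IsTrF M tr) {u v : C} (hu : u ∈ Lev M 1)
    (hv : v ∈ Lev M 1) (hsu : st u = u) (hsv : st v = v) (huv : u * v = -(v * u)) :
    u * v ∈ Lev M 2 := by
  have h1 := vec_mul h hu hv
  have h2 : u * v ∈ FF M (fun k => k = 2) := by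
    refine mem_FF h ht fun K hK => ?_
    by_cases hK0 : K.card = 0
    · have h3 := cf_st h ht K (u * v)
      rw [h.st_mul, hsu, hsv, hK0] at h3
      have h4 : v * u = -(u * v) := by rw [huv, neg_neg]
      rw [h4, map_neg] at h3
      norm_num at h3
      linear_combination (-1 / 2 : ℂ) * h3
    · refine cf_FF h ht h1 K ?_
      rintro (h3 | h3)
      · exact hK0 h3
      · exact hK h3
  exact h2

/-- `Lev 2 * M univ` is `Lev (d - 2)` -/
theorem lev2_om (h : FullE M st) {t : C} (ht : t ∈ Lev M 2) :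
    t * M Finset.univ ∈ Lev M (d - 2) := by
  refine Submodule.span_induction (p := fun t _ => t * M Finset.univ ∈ Lev M (d - 2))
    ?_ ?_ ?_ ?_ ht
  · rintro x ⟨K, hK, rfl⟩
    obtain ⟨ε, -, h1⟩ := h.mul K Finset.univ
    rw [h1]
    refine Submodule.smul_mem _ _ (Submodule.subset_span ⟨K ∆ Finset.univ, ?_, rfl⟩)
    have h2 : K ∆ Finset.univ = Kᶜ := by
      ext k
      simp only [Finset.mem_symmDiff, Finset.mem_compl, Finset.mem_univ, not_true_eq_false,
        and_false, true_and, false_or]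
    rw [h2, Finset.card_compl, Fintype.card_fin, hK]
  · rw [zero_mul]; exact Submodule.zero_mem _
  · intro x y _ _ hx hy
    rw [add_mul]; exact Submodule.add_mem _ hx hy
  · intro a x _ hx
    rw [smul_mul_assoc]; exact Submodule.smul_mem _ _ hx

theorem test_mem (h : FullE M st) (ht : IsTrF M tr) {u v ω : C} (hu : u ∈ Lev M 1)
    (hv : v ∈ Lev M 1) (hsu : st u = u) (hsv : st v = v) (huv : u * v = -(v * u))
    (hω : ∀ v ∈ Lev M 1, ω * v = -(v * ω)) : u * v * ω ∈ Lev M (d - 2) := by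
  have h1 := anti_mem h ht hω
  have h2 := orth_mem h ht hu hv hsu hsv huv
  have h3 : Lev M d ≤ Submodule.span ℂ {M Finset.univ} := by
    refine Submodule.span_mono ?_
    rintro x ⟨K, hK, rfl⟩
    have : K = Finset.univ := by
      rw [← Finset.card_eq_iff_eq_univ, hK, Fintype.card_fin]
    rw [this]
    exact Set.mem_singleton _
  obtain ⟨c, hc⟩ := Submodule.mem_span_singleton.mp (h3 h1)
  rw [← hc, mul_smul_comm]
  exact Submodule.smul_mem _ _ (lev2_om h h2)

end gen

section cl

variable {T : Type u} [AddCommGroup T] [Module ℂ T] {Q : QuadraticForm ℂ T}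
  {A : ∀ n : ℕ, Submodule ℂ (WForm Q n)}

/-- one class not killed by a test element: the Lie algebra is `so(T)` -/
lemma lie_sub0 {d : ℕ} {e : Module.Basis (Fin d) ℂ T} (hd : d % 4 = 0) (h8 : 8 ≤ d)
    (he : ONB Q e) (hA : IsMotivicW A)
    (hX : ∃ (n : ℕ) (f : WForm Q n) (x : W Q), f ∈ A n ∧ IsTestD x ∧
      ¬ Kills (LinearMap.mulLeft ℂ x) f) :
    ∀ x ∈ NN A, x ∈ Lev (MF (Q := Q) e) 2 := by
  obtain ⟨hE, hev, hlev1⟩ := t_LF0 Q _ e hd he
  obtain ⟨hfdC, tr, htr⟩ := t_FTR0 _ _ hE
  have hfdW : FiniteDimensional ℂ (W Q) := FiniteDimensional.of_injective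
    (CliffordAlgebra.even Q).val.toLinearMap Subtype.val_injective
  set M := MF (Q := Q) e with hM
  have h2 : ∀ K : Finset (Fin d), K.card = 2 → M K ∈ NN A :=
    fun K hK => Pool.Agent.K1H14.SE.two_set he hA hK
  have hNev : ∀ x ∈ NN A, x ∈ EvS M := by
    intro x hx
    obtain ⟨w, -, rfl⟩ := mem_NN.mp hx
    exact (hev _).mpr w.2
  have hNsk : ∀ x ∈ NN A, reverse x = -x := by
    intro x hx
    obtain ⟨w, hw, rfl⟩ := mem_NN.mp hx
    have h := congrArg (fun w : W Q => (w : CliffordAlgebra Q)) (LieC_skew hA hw)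
    simpa [Pool.Agent.K1H14.SD.rv_coe] using h
  have hNbr : ∀ x ∈ NN A, ∀ y ∈ NN A, x * y - y * x ∈ NN A := by
    intro x hx y hy
    obtain ⟨w, hw, rfl⟩ := mem_NN.mp hx
    obtain ⟨w', hw', rfl⟩ := mem_NN.mp hy
    exact mem_NN.mpr ⟨_, LieC_bracket hw hw', rfl⟩
  refine lie0 hE h8 (NN A) hNev h2 hNbr hNsk ?_
  obtain ⟨n, f, x, hf, ⟨u, v, ω, hp, hω, hx⟩, hxk⟩ := hX
  refine ⟨(x : CliffordAlgebra Q), ?_, fun h => hxk (coe_mem_NN.mp h n f hf)⟩
  rw [hx]
  refine test_mem hE htr ((hlev1 _).mpr ⟨u, rfl⟩) ((hlev1 _).mpr ⟨v, rfl⟩) (reverse_ι u)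
    (reverse_ι v) ?_ ?_
  · have h3 := ι_mul_ι_add_swap (Q := Q) u v
    rw [hp, map_zero] at h3
    exact eq_neg_of_add_eq_zero_left h3
  · intro w hw
    obtain ⟨t, rfl⟩ := (hlev1 _).mp hw
    exact hω t

/-- **one class not killed by a test element gives all Tate classes** -/
theorem tate0 (hQ : ∀ t : T, (∀ s : T, QuadraticMap.polar Q s t = 0) → t = 0)
    (hd : Module.finrank ℂ T % 4 = 0) (h8 : 8 ≤ Module.finrank ℂ T) (hA : IsMotivicW A)
    (hX : ∃ (n : ℕ) (f : WForm Q n) (x : W Q), f ∈ A n ∧ IsTestD x ∧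
      ¬ Kills (LinearMap.mulLeft ℂ x) f) :
    ∀ (n : ℕ) (f : WForm Q n), IsTate f → f ∈ A n := by
  have hfdT : FiniteDimensional ℂ T := FiniteDimensional.of_finrank_pos (by omega)
  obtain ⟨e, he⟩ := exists_onb (Q := Q) hQ
  obtain ⟨hE, hev, hlev1⟩ := t_LF0 Q _ e hd he
  obtain ⟨hfdC, tr, htr⟩ := t_FTR0 _ _ hE
  have hfdW : FiniteDimensional ℂ (W Q) := FiniteDimensional.of_injective
    (CliffordAlgebra.even Q).val.toLinearMap Subtype.val_injective
  have hN := lie_sub0 hd h8 he hA hX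
  set M := MF (Q := Q) e with hM
  have h2 : ∀ K : Finset (Fin (Module.finrank ℂ T)), K.card = 2 → M K ∈ NN A :=
    fun K hK => Pool.Agent.K1H14.SE.two_set he hA hK
  have hN2 : Lev M 2 ≤ NN A := by
    unfold Lev
    rw [Submodule.span_le]
    rintro x ⟨K, hK, rfl⟩
    exact h2 K hK
  intro n f hf
  apply hA.2.2
  intro g hg
  -- `g` is the left multiplication by `y`
  set y := g 1 with hy
  have key : ∀ w w' : W Q, rv Q (g w) * g w' = rv Q w * w' := by
    intro w w'
    apply Subtype.ext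
    rw [← sub_eq_zero, ← Module.forall_dual_apply_eq_zero_iff ℂ]
    intro μ
    obtain ⟨f', hf', h⟩ := hA.2.1 μ
    have h1 := hg 2 f' hf' ![w, w']
    rw [h, h] at h1
    rw [map_sub, sub_eq_zero]
    exact h1
  have hyy : rv Q y * y = 1 := by
    have := key 1 1
    rwa [rv_one, one_mul] at this
  have hyy' : y * rv Q y = 1 := inv_comm hyy
  have hgy : ∀ w, g w = y * w := by
    intro w
    have h1 := key 1 w
    rw [rv_one, one_mul] at h1
    calc g w = (y * rv Q y) * g w := by rw [hyy', one_mul]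
      _ = y * (rv Q y * g w) := mul_assoc _ _ _
      _ = y * w := by rw [h1]
  have hgl : (g : W Q →ₗ[ℂ] W Q) = LinearMap.mulLeft ℂ y := by
    ext w; simp [hgy]
  have hgs : ∀ w, g.symm w = rv Q y * w := by
    intro w
    rw [LinearEquiv.symm_apply_eq, hgy, ← mul_assoc, hyy', one_mul]
  have hgsl : (g.symm : W Q →ₗ[ℂ] W Q) = LinearMap.mulLeft ℂ (rv Q y) := by
    ext w; simp [hgs]
  -- `y` normalises the Lie algebra
  have hnorm : ∀ x, x ∈ LieC A → y * x * rv Q y ∈ LieC A := by
    intro x hx m f' hf'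
    have h1 := (hx m f' hf').conj (hg m f' hf')
    have h2 : (g : W Q →ₗ[ℂ] W Q) ∘ₗ LinearMap.mulLeft ℂ x ∘ₗ (g.symm : W Q →ₗ[ℂ] W Q) =
        LinearMap.mulLeft ℂ (y * x * rv Q y) := by
      rw [hgl, hgsl]
      ext w; simp [mul_assoc]
    rwa [h2] at h1
  have hyc : reverse (y : CliffordAlgebra Q) * (y : CliffordAlgebra Q) = 1 := by
    have h := congrArg (fun w : W Q => (w : CliffordAlgebra Q)) hyy
    exact h
  have hn1 : ∀ x ∈ Lev M 2, (y : CliffordAlgebra Q) * x * reverse (y : CliffordAlgebra Q) ∈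
      Lev M 2 := by
    intro x hx
    obtain ⟨w, hw, rfl⟩ := mem_NN.mp (hN2 hx)
    exact hN _ (mem_NN.mpr ⟨_, hnorm w hw, rfl⟩)
  have hs : ∃ t : T →ₗ[ℂ] T, IsSpinPair y t := by
    have hex : ∀ v : T, ∃ v' : T, (y : CliffordAlgebra Q) * ι Q v *
        reverse (y : CliffordAlgebra Q) = ι Q v' := fun v =>
      (hlev1 _).mp (vec0 hE htr h8 _ hyc hn1 ((hlev1 _).mpr ⟨v, rfl⟩))
    choose t ht using hex
    refine ⟨e.constr ℂ (fun j => t (e j)), hyc, ?_⟩
    have h1 : (LinearMap.mulRight ℂ (reverse (y : CliffordAlgebra Q))).comp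
        ((LinearMap.mulLeft ℂ (y : CliffordAlgebra Q)).comp (ι Q)) =
        (ι Q).comp (e.constr ℂ (fun j => t (e j))) := by
      refine e.ext fun j => ?_
      show (y : CliffordAlgebra Q) * ι Q (e j) * reverse (y : CliffordAlgebra Q) =
        ι Q (e.constr ℂ (fun j => t (e j)) (e j))
      rw [Module.Basis.constr_basis]
      exact ht (e j)
    intro v
    exact LinearMap.congr_fun h1 v
  obtain ⟨t, ht⟩ := hs
  rw [hgl]
  exact hf.1 _ t ht

/-- **the equivalence** -/
theorem tate0_iff (hQ : ∀ t : T, (∀ s : T, QuadraticMap.polar Q s t = 0) → t = 0)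
    (hd : Module.finrank ℂ T % 4 = 0) (h8 : 8 ≤ Module.finrank ℂ T) (hA : IsMotivicW A) :
    (∃ (n : ℕ) (f : WForm Q n) (x : W Q), f ∈ A n ∧ IsTestD x ∧
      ¬ Kills (LinearMap.mulLeft ℂ x) f) ↔
    ∀ (n : ℕ) (f : WForm Q n), IsTate f → f ∈ A n := by
  constructor
  · intro hX
    exact tate0 hQ hd h8 hA hX
  · intro h
    obtain ⟨f, x, hf, hx, hk⟩ := conv0 Q hQ hd h8
    exact ⟨4, f, x, h 4 f hf, hx, hk⟩

end cl

end Pool.Agent.K1H14.SF
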