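import Pool.Agent.K1H14.SE.Stm

/-!
# Rank zero modulo four: the Clifford algebra by its monomials
-/

namespace Pool.Agent.K1H14.SF

open Pool.Agent.K1H14.KS Pool.Agent.K1H14.SD Pool.Agent.K1H14.SE CliffordAlgebra

open scoped symmDiff

universe u

/-- the Clifford algebra of a quadratic space of dimension zero modulo four, by its monomials -/
structure FullE {C : Type u} [Ring C] [Algebra ℂ C] {d : ℕ} (M : Finset (Fin d) → C)
    (st : C →ₗ[ℂ] C) : Prop where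
  dim : d % 4 = 0
  ne : (1 : C) ≠ 0
  one : M ∅ = 1
  mul : ∀ K L : Finset (Fin d), ∃ ε : ℂ, (ε = 1 ∨ ε = -1) ∧ M K * M L = ε • M (K ∆ L)
  comm : ∀ K L : Finset (Fin d),
    M K * M L = (-1 : ℂ) ^ (K.card * L.card + (K ∩ L).card) • (M L * M K)
  st_M : ∀ K : Finset (Fin d), st (M K) = (-1 : ℂ) ^ (K.card * (K.card - 1) / 2) • M K
  st_inv : ∀ K : Finset (Fin d), st (M K) * M K = 1
  st_mul : ∀ x y : C, st (x * y) = st y * st x
  st_st : ∀ x : C, st (st x) = x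
  span : ∀ x : C, x ∈ Submodule.span ℂ {x | ∃ K : Finset (Fin d), x = M K}

/-- `x = u v ω` with `u`, `v` orthogonal vectors and `ω` an element of the Clifford algebra which
anticommutes with all vectors (a multiple of the product of an orthogonal basis) -/
def IsTestD {T : Type u} [AddCommGroup T] [Module ℂ T] {Q : QuadraticForm ℂ T} (x : W Q) : Prop :=
  ∃ (u v : T) (ω : CliffordAlgebra Q), QuadraticMap.polar Q u v = 0 ∧
    (∀ t : T, ω * ι Q t = -(ι Q t * ω)) ∧ (x : CliffordAlgebra Q) = ι Q u * ι Q v * ω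

def S_FTR0 : Prop := ∀ {C : Type u} [Ring C] [Algebra ℂ C] {d : ℕ} (M : Finset (Fin d) → C)
  (st : C →ₗ[ℂ] C), FullE M st → FiniteDimensional ℂ C ∧ ∃ tr : C →ₗ[ℂ] ℂ, IsTrF M tr

def S_LF0 : Prop := ∀ {T : Type u} [AddCommGroup T] [Module ℂ T] (Q : QuadraticForm ℂ T) (d : ℕ)
  (b : Module.Basis (Fin d) ℂ T), d % 4 = 0 → ONB Q b →
  FullE (MF (Q := Q) b) (reverse (Q := Q)) ∧
    (∀ x : CliffordAlgebra Q, x ∈ EvS (MF (Q := Q) b) ↔ x ∈ CliffordAlgebra.even Q) ∧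
    ∀ x : CliffordAlgebra Q, x ∈ Lev (MF (Q := Q) b) 1 ↔ ∃ v : T, x = ι Q v

end Pool.Agent.K1H14.SF
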