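import Pool.Agent.K1H14.SD.Final2

/-!
# The possible Lie algebras (odd rank)
-/

namespace Pool.Agent.K1H14.SF

open Pool.Agent.K1H14.KS Pool.Agent.K1H14.SD CliffordAlgebra

universe u

variable {T : Type u} [AddCommGroup T] [Module ℂ T] {Q : QuadraticForm ℂ T}

/-- `x` kills all the classes in the spaces `A n` (it is in the Lie algebra of the group which they
define) -/
def InLie (A : ∀ n : ℕ, Submodule ℂ (WForm Q n)) (x : W Q) : Prop :=
  ∀ (n : ℕ) (f : WForm Q n), f ∈ A n → Kills (LinearMap.mulLeft ℂ x) f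

/-- `x = w + v z` with `w` in the Lie algebra of `Spin(T)`, `v` a vector and `z` central in the
Clifford algebra -/
def IsMid (x : W Q) : Prop :=
  ∃ (w : W Q) (Y : T →ₗ[ℂ] T) (v : T) (z : CliffordAlgebra Q), IsLiePair w Y ∧
    (∀ t : T, z * ι Q t = ι Q t * z) ∧
    (x : CliffordAlgebra Q) = (w : CliffordAlgebra Q) + ι Q v * z

lemma lev2_pairM {d : ℕ} {b : Module.Basis (Fin d) ℂ T} (hd : Odd d) (hb : ONB Q b) {x : W Q}
    (hx : x ∈ Lev (MM (Q := Q) b) 2) : ∃ Y : T →ₗ[ℂ] T, IsLiePair x Y := by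
  refine Submodule.span_induction (p := fun x _ => ∃ Y : T →ₗ[ℂ] T, IsLiePair x Y) ?_ ?_ ?_ ?_ hx
  · rintro z ⟨K, hK, rfl⟩
    exact (p_LNK2 Q d b hd hb).2 K hK
  · refine ⟨0, ?_, ?_⟩
    · rw [ZeroMemClass.coe_zero, map_zero, add_zero]
    · intro v
      rw [ZeroMemClass.coe_zero, zero_mul, mul_zero, sub_zero, LinearMap.zero_apply, map_zero]
  · rintro w w' _ _ ⟨Y, h1, h2⟩ ⟨Y', h1', h2'⟩
    refine ⟨Y + Y', ?_, ?_⟩
    · show reverse ((w : CliffordAlgebra Q) + (w' : CliffordAlgebra Q)) +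
        ((w : CliffordAlgebra Q) + (w' : CliffordAlgebra Q)) = 0
      rw [map_add, add_add_add_comm, h1, h1', add_zero]
    · intro v
      show ((w : CliffordAlgebra Q) + (w' : CliffordAlgebra Q)) * ι Q v -
        ι Q v * ((w : CliffordAlgebra Q) + (w' : CliffordAlgebra Q)) = _
      rw [add_mul, mul_add, add_sub_add_comm, h2, h2', LinearMap.add_apply, map_add]
  · rintro a w _ ⟨Y, h1, h2⟩
    refine ⟨a • Y, ?_, ?_⟩
    · show reverse (a • (w : CliffordAlgebra Q)) + a • (w : CliffordAlgebra Q) = 0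
      rw [map_smul, ← smul_add, h1, smul_zero]
    · intro v
      show (a • (w : CliffordAlgebra Q)) * ι Q v - ι Q v * (a • (w : CliffordAlgebra Q)) = _
      rw [smul_mul_assoc, mul_smul_comm, ← smul_sub, h2, LinearMap.smul_apply, map_smul]

/-- **the possible Lie algebras** -/
theorem trichotomy {A : ∀ n : ℕ, Submodule ℂ (WForm Q n)}
    (hQ : ∀ t : T, (∀ s : T, QuadraticMap.polar Q s t = 0) → t = 0)
    (hd : Odd (Module.finrank ℂ T)) (h5 : 5 ≤ Module.finrank ℂ T) (hA : IsMotivicW A) :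
    ((∀ x : W Q, InLie A x ↔ ∃ Y : T →ₗ[ℂ] T, IsLiePair x Y) ∧
      ∀ (n : ℕ) (f : WForm Q n), IsTate f → f ∈ A n) ∨
    (Module.finrank ℂ T % 4 = 3 ∧ ∀ x : W Q, InLie A x ↔ IsMid x) ∨
    ∀ x : W Q, InLie A x ↔ reverse (x : CliffordAlgebra Q) = -(x : CliffordAlgebra Q) := by
  have hfdT : FiniteDimensional ℂ T := FiniteDimensional.of_finrank_pos (by omega)
  obtain ⟨e, he⟩ := exists_onb (Q := Q) hQ
  have hE := p_LNK1 Q _ e hd he
  have hin : ∀ x : W Q, InLie A x ↔ x ∈ LieC A := fun x => Iff.rfl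
  have h2 : ∀ K : Finset (Fin (Module.finrank ℂ T)), K.card = 2 → MM (Q := Q) e K ∈ LieC A := by
    intro K hK n f hf
    obtain ⟨Y, hY⟩ := (p_LNK2 Q _ e hd he).2 K hK
    exact (hA.1 n f hf).2 _ Y hY
  have hsk : ∀ x ∈ LieC A, reverse (x : CliffordAlgebra Q) = -(x : CliffordAlgebra Q) := by
    intro x hx
    have h := congrArg (fun w : W Q => (w : CliffordAlgebra Q)) (LieC_skew hA hx)
    simpa [Pool.Agent.K1H14.SD.rv_coe] using h
  have hsk' : ∀ x : W Q, reverse (x : CliffordAlgebra Q) = -(x : CliffordAlgebra Q) →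
      rv Q x = -x := by
    intro x hx
    apply Subtype.ext
    rw [Pool.Agent.K1H14.SD.rv_coe, hx, NegMemClass.coe_neg]
  have hpair : ∀ (x : W Q) (Y : T →ₗ[ℂ] T), IsLiePair x Y → x ∈ LieC A :=
    fun x Y hY n f hf => (hA.1 n f hf).2 x Y hY
  by_cases hall : ∀ x : W Q, reverse (x : CliffordAlgebra Q) = -(x : CliffordAlgebra Q) →
      x ∈ LieC A
  · exact Or.inr (Or.inr fun x => ⟨fun h => hsk x h, fun h => hall x h⟩)
  push Not at hall
  obtain ⟨x0, hx0, hx0N⟩ := hall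
  -- the case of a test element
  have key : ∀ x1 : W Q, IsTest x1 → (Module.finrank ℂ T % 4 = 3 → x1 ∈ Lev (MM (Q := Q) e) (Module.finrank ℂ T - 1)) →
      x1 ∉ LieC A → (∀ x : W Q, InLie A x ↔ ∃ Y : T →ₗ[ℂ] T, IsLiePair x Y) ∧
      ∀ (n : ℕ) (f : WForm Q n), IsTate f → f ∈ A n := by
    intro x1 ht hl hx1
    constructor
    · intro x
      constructor
      · intro hx
        exact lev2_pairM hd he (p_LIE (MM (Q := Q) e) (rv Q) (LieC A) hE h2
          (fun x hx y hy => LieC_bracket hx hy) (fun x hx => LieC_skew hA hx)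
          ⟨x1, hsk' x1 ht.1, hl, hx1⟩ x hx)
      · rintro ⟨Y, hY⟩
        exact hpair x Y hY
    · refine tate_final hQ hd h5 hA ?_
      by_contra hcon
      push Not at hcon
      exact hx1 fun n f hf => hcon n f x1 hf ht
  by_cases h3 : Module.finrank ℂ T % 4 = 3
  · by_cases hL : ∀ x ∈ Lev (MM (Q := Q) e) (Module.finrank ℂ T - 1), x ∈ LieC A
    · refine Or.inr (Or.inl ⟨h3, fun x => ⟨fun hx => ?_, ?_⟩⟩)
      · obtain ⟨u, hu, v, hv, huv⟩ := Submodule.mem_sup.mp (p_LIE2 (MM (Q := Q) e) (rv Q) (LieC A)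
          hE h2 (fun x hx y hy => LieC_bracket hx hy) (fun x hx => LieC_skew hA hx)
          ⟨x0, hsk' x0 hx0, hx0N⟩ x hx)
        obtain ⟨Y, hY⟩ := lev2_pairM hd he hu
        obtain ⟨t, ht⟩ := Pool.Agent.K1H96.SD.of_lev hd he v hv
        refine ⟨u, Y, t, Pool.Agent.K1H96.SD.om Q e, hY,
          fun s => Pool.Agent.K1H96.SD.om_comm hd he _, ?_⟩
        rw [← ht, ← huv]
        rfl
      · rintro ⟨w, Y, v, z, hY, hz, hx⟩
        have h6 : x - w ∈ Lev (MM (Q := Q) e) (Module.finrank ℂ T - 1) := by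
          refine (p_LNK3 Q _ e hd he).2 (x - w) v z hz ?_
          show (x : CliffordAlgebra Q) - (w : CliffordAlgebra Q) = _
          rw [hx, add_sub_cancel_left]
        have h7 := Submodule.add_mem (LieC A) (hL _ h6) (hpair w Y hY)
        rwa [sub_add_cancel] at h7
    · push Not at hL
      obtain ⟨x1, hx1, hx1N⟩ := hL
      refine Or.inl (key x1 ⟨?_, fun _ => ?_⟩ (fun _ => hx1) hx1N)
      · have h6 : rv Q x1 = -x1 := by
          refine Submodule.span_induction (p := fun x _ => rv Q x = -x) ?_ ?_ ?_ ?_ hx1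
          · rintro z ⟨K, hK, rfl⟩
            have hKe : Even K.card := Nat.even_iff.2 (by omega)
            rw [hE.st_M K hKe]
            obtain ⟨m, hm⟩ : ∃ m, K.card = 4 * m + 2 := ⟨K.card / 4, by omega⟩
            rw [hm, show (4 * m + 2) / 2 = 2 * m + 1 by omega, pow_succ, pow_mul]
            simp
          · rw [map_zero, neg_zero]
          · intro x y _ _ hx hy
            rw [map_add, hx, hy, neg_add]
          · intro a x _ hx
            rw [map_smul, hx, smul_neg]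
        have h8 := congrArg (fun w : W Q => (w : CliffordAlgebra Q)) h6
        simpa [Pool.Agent.K1H14.SD.rv_coe] using h8
      · obtain ⟨t, ht⟩ := Pool.Agent.K1H96.SD.of_lev hd he x1 hx1
        exact ⟨t, Pool.Agent.K1H96.SD.om Q e, fun s => Pool.Agent.K1H96.SD.om_comm hd he _, ht⟩
  · exact Or.inl (key x0 ⟨hx0, fun h => absurd h h3⟩ (fun h => absurd h h3) hx0N)

end Pool.Agent.K1H14.SF
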